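import Pool.Agent.K3h56.E2.Stm3

/-!
# Rubin's conjecture for groups of exponent two, explicit form: fundamental `A`-units
-/

set_option autoImplicit false

open NumberField IsDedekindDomain

noncomputable section

namespace Pool.Agent.K3h4.E2

open Pool.Agent.K3h56.E2

variable (K : Type) [Field K] [NumberField K]

/-- the inclusion of the units -/
def inc : (𝓞 K)ˣ →* Kˣ := Units.map (algebraMap (𝓞 K) K : 𝓞 K →* K)

lemma inc_val (ε : (𝓞 K)ˣ) : ((inc K ε : Kˣ) : K) = ((ε : 𝓞 K) : K) := rfl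

lemma inc_mem (A : Set (HeightOneSpectrum (𝓞 K))) (ε : (𝓞 K)ˣ) : inc K ε ∈ SU K A := by
  intro w _
  have h1 : w.valuation K (algebraMap (𝓞 K) K (ε : 𝓞 K)) ≤ 1 := w.valuation_le_one _
  have h2 : w.valuation K (algebraMap (𝓞 K) K ((ε⁻¹ : (𝓞 K)ˣ) : 𝓞 K)) ≤ 1 :=
    w.valuation_le_one _
  have h3 : w.valuation K (algebraMap (𝓞 K) K (ε : 𝓞 K)) *
      w.valuation K (algebraMap (𝓞 K) K ((ε⁻¹ : (𝓞 K)ˣ) : 𝓞 K)) = 1 := by
    rw [← map_mul, ← map_mul, Units.mul_inv, map_one, map_one]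
  have h4 : (1 : WithZero (Multiplicative ℤ)) ≤
      w.valuation K (algebraMap (𝓞 K) K (ε : 𝓞 K)) := by
    have h5 := mul_le_mul_right h2 (w.valuation K (algebraMap (𝓞 K) K (ε : 𝓞 K)))
    rw [h3, mul_one] at h5
    exact h5
  exact le_antisymm h1 h4

lemma mu_le (A : Set (HeightOneSpectrum (𝓞 K))) : mu K ≤ SU K A := by
  intro x hx w _
  have hx' : IsOfFinOrder x := hx
  obtain ⟨n, hn, hxn⟩ := isOfFinOrder_iff_pow_eq_one.1 hx'
  have h1 : (w.valuation K (x : K)) ^ n = 1 := by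
    rw [← map_pow, ← Units.val_pow_eq_pow_val, hxn, Units.val_one, map_one]
  rcases lt_trichotomy (w.valuation K (x : K)) 1 with h | h | h
  · have := pow_lt_one₀ zero_le h hn.ne'
    exact absurd h1 this.ne
  · exact h
  · have := one_lt_pow₀ h hn.ne'
    exact absurd h1 this.ne'

lemma inc_torsion (ζ : (𝓞 K)ˣ) (h : ζ ∈ Units.torsion K) : inc K ζ ∈ mu K := by
  have h' : IsOfFinOrder ζ := h
  exact MonoidHom.isOfFinOrder (inc K) h'

/-- Brick FUND -/
theorem t_FUND (hVAL : S_VAL) : S_FUND := by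
  intro K _ _ A ι _ _ hcard
  classical
  obtain ⟨ord, -, -, h3⟩ := hVAL K A
  obtain ⟨N, hN⟩ : ∃ N : Submodule ℤ (A → ℤ),
      ∀ z, z ∈ N ↔ ∃ x ∈ SU K A, Multiplicative.toAdd (ord x) = z := by
    refine ⟨{ carrier := {z | ∃ x ∈ SU K A, Multiplicative.toAdd (ord x) = z},
              add_mem' := ?_, zero_mem' := ?_, smul_mem' := ?_ }, fun z => Iff.rfl⟩
    · rintro _ _ ⟨x, hx, rfl⟩ ⟨y, hy, rfl⟩
      exact ⟨x * y, mul_mem hx hy, by rw [map_mul, toAdd_mul]⟩
    · exact ⟨1, one_mem _, by rw [map_one, toAdd_one]⟩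
    · rintro c _ ⟨x, hx, rfl⟩
      exact ⟨x ^ c, zpow_mem hx c, by rw [map_zpow, toAdd_zpow]⟩
  obtain ⟨n, snf⟩ := Submodule.smithNormalForm (Pi.basisFun ℤ A) N
  have hg : ∀ i : Fin n, ∃ x ∈ SU K A, Multiplicative.toAdd (ord x) = (snf.bN i : A → ℤ) :=
    fun i => (hN _).1 (snf.bN i).2
  choose g hgS hgo using hg
  obtain ⟨xP, hxP⟩ : ∃ xP : A → Kˣ, xP = Function.extend snf.f g (fun _ => 1) := ⟨_, rfl⟩
  have hxPf : ∀ i, xP (snf.f i) = g i := by
    intro i
    rw [hxP]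
    exact snf.f.injective.extend_apply g _ i
  have hxPS : ∀ P, xP P ∈ SU K A := by
    intro P
    by_cases h : ∃ i, snf.f i = P
    · obtain ⟨i, rfl⟩ := h
      rw [hxPf]
      exact hgS i
    · rw [hxP, Function.extend_apply' _ _ _ h]
      exact one_mem _
  have hrank : Units.rank K + 1 = Fintype.card (InfinitePlace K) := by
    have h1 : 0 < Fintype.card (InfinitePlace K) := Fintype.card_pos
    have h2 : Units.rank K = Fintype.card (InfinitePlace K) - 1 := rfl
    omega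
  have hce : Fintype.card ι = Fintype.card (Fin (Units.rank K) ⊕ A) := by
    rw [Fintype.card_sum, Fintype.card_fin, Fintype.card_coe]
    omega
  obtain ⟨e⟩ : Nonempty (ι ≃ Fin (Units.rank K) ⊕ A) := ⟨Fintype.equivOfCardEq hce⟩
  obtain ⟨x, hx⟩ : ∃ x : ι → Kˣ,
      x = fun b => Sum.elim (fun i => inc K (Units.fundSystem K i)) xP (e b) := ⟨_, rfl⟩
  refine ⟨x, le_antisymm (sup_le ?_ (mu_le K _)) ?_⟩
  · rw [Subgroup.closure_le]
    rintro _ ⟨b, rfl⟩
    rw [hx]
    show Sum.elim (fun i => inc K (Units.fundSystem K i)) xP (e b) ∈ SU K A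
    rcases e b with i | P
    · exact inc_mem K _ _
    · exact hxPS P
  · intro x0 hx0
    have hcl : ∀ c : Fin (Units.rank K) ⊕ A,
        Sum.elim (fun i => inc K (Units.fundSystem K i)) xP c ∈
          Subgroup.closure (Set.range x) ⊔ mu K := by
      intro c
      apply Subgroup.mem_sup_left
      apply Subgroup.subset_closure
      refine ⟨e.symm c, ?_⟩
      rw [hx]
      show Sum.elim (fun i => inc K (Units.fundSystem K i)) xP (e (e.symm c)) = _
      rw [Equiv.apply_symm_apply]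
    have hz : Multiplicative.toAdd (ord x0) ∈ N := (hN _).2 ⟨x0, hx0, rfl⟩
    obtain ⟨c, hc⟩ : ∃ c : Fin n → ℤ,
        ∑ i, c i • (snf.bN i : A → ℤ) = Multiplicative.toAdd (ord x0) := by
      refine ⟨fun i => snf.bN.repr ⟨_, hz⟩ i, ?_⟩
      have h5 := snf.bN.sum_repr ⟨_, hz⟩
      have h6 := congrArg (fun z : N => (z : A → ℤ)) h5
      simp only [Submodule.coe_sum, Submodule.coe_smul] at h6
      exact h6
    have hy : Multiplicative.toAdd (ord (∏ i, g i ^ c i)) = Multiplicative.toAdd (ord x0) := by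
      rw [map_prod, toAdd_prod, ← hc]
      refine Finset.sum_congr rfl fun i _ => ?_
      rw [map_zpow, toAdd_zpow, hgo]
    have hyS : (∏ i, g i ^ c i) ∈ SU K A := prod_mem fun i _ => zpow_mem (hgS i) _
    have hy1 : ord (x0 * (∏ i, g i ^ c i)⁻¹) = 1 := by
      apply Multiplicative.toAdd.injective
      rw [map_mul, map_inv, toAdd_mul, toAdd_inv, hy, toAdd_one, add_neg_cancel]
    obtain ⟨ε, hε⟩ := (h3 _ (mul_mem hx0 (inv_mem hyS))).1 hy1
    have hε' : x0 * (∏ i, g i ^ c i)⁻¹ = inc K ε := Units.ext hε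
    obtain ⟨ζe, hζ, -⟩ := Units.exist_unique_eq_mul_prod K ε
    have hx0' : x0 = inc K ε * ∏ i, g i ^ c i := by
      rw [← hε', inv_mul_cancel_right]
    rw [hx0', hζ, map_mul, map_prod]
    refine mul_mem (mul_mem ?_ (prod_mem fun i _ => ?_)) (prod_mem fun i _ => ?_)
    · exact Subgroup.mem_sup_right (inc_torsion K _ ζe.1.2)
    · rw [map_zpow]
      exact zpow_mem (hcl (Sum.inl i)) _
    · refine zpow_mem ?_ _
      rw [← hxPf]
      exact hcl (Sum.inr (snf.f i))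

end Pool.Agent.K3h4.E2
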